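import Mathlib

set_option autoImplicit false

namespace Pool.Agent.H.MP_5851c7_co

open Finset

variable {V : Type} [Fintype V] [DecidableEq V]

def Feas (h f : V → V → ℤ) : Prop := (∀ u v, f u v = - f v u) ∧ ∀ u v, f u v ≤ h u v

def pen (t x : ℤ) : ℤ := max 0 (max (t - x) (x - t - 1))

def Phi (t : V → ℤ) (f : V → V → ℤ) : ℤ := ∑ v, pen (t v) (∑ w, f v w)

theorem shift {h f : V → V → ℤ} (hf : Feas h f) (z : V) (K : Finset V) (hz : z ∉ K)
    (hK : ∀ w ∈ K, f w z < h w z) : ∃ g, Feas h g ∧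
      (∀ a, ∑ b, g a b = ∑ b, f a b + (if a ∈ K then 1 else 0) - if a = z then (#K : ℤ) else 0) ∧
      ∀ a b, ¬ (a ∈ K ∧ b = z) → ¬ (a = z ∧ b ∈ K) → g a b = f a b := by
  refine ⟨fun a b => f a b + (if a ∈ K ∧ b = z then 1 else 0) - if a = z ∧ b ∈ K then 1 else 0,
    ⟨fun a b => ?_, fun a b => ?_⟩, fun a => ?_, fun a b h1 h2 => by simp [h1, h2]⟩
  · have := hf.1 a b
    simp only [and_comm (a := b ∈ K), and_comm (a := b = z)]
    linarith
  · have := hf.2 a b
    by_cases h1 : a ∈ K ∧ b = z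
    · have h2 : ¬ (a = z ∧ b ∈ K) := fun h2 => hz (h2.1 ▸ h1.1)
      have := hK a h1.1
      simp only [if_pos h1, if_neg h2]
      rw [h1.2]; omega
    · simp only [if_neg h1]
      split_ifs <;> omega
  · rw [sum_sub_distrib, sum_add_distrib]
    congr 2
    · by_cases ha : a ∈ K <;> simp [ha]
    · by_cases ha : a = z <;> simp [ha]

theorem anti_sum {f : V → V → ℤ} (hf : ∀ u v, f u v = - f v u) (S : Finset V) :
    ∑ u ∈ S, ∑ v ∈ S, f u v = 0 := by
  have : ∑ u ∈ S, ∑ v ∈ S, f u v = - ∑ u ∈ S, ∑ v ∈ S, f u v := by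
    conv_lhs => rw [sum_comm]
    rw [← sum_neg_distrib]
    refine sum_congr rfl fun u _ => ?_
    rw [← sum_neg_distrib]
    exact sum_congr rfl fun v _ => hf v u
  omega

theorem improve {h : V → V → ℤ} (hc : ∀ u v, h u v + h v u ≤ 1) {lo hi : V → ℤ}
    (hlh : ∀ v, lo v ≤ hi v) (h1 : ∀ v, 2 * lo v ≤ ∑ w, h v w - ∑ w, h w v)
    (h2 : ∀ v, 2 * hi v ≤ ∑ w, h v w + lo v + 2) {t : V → ℤ} {f : V → V → ℤ}
    (ht : ∀ v, t v = lo v ∨ t v = hi v) (hf : Feas h f) {x : V} (hx : ∑ w, f x w < t x) :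
    ∃ t' f', (∀ v, t' v = lo v ∨ t' v = hi v) ∧ Feas h f' ∧ Phi t' f' < Phi t f := by
  classical
  by_contra hno
  have hmin : ∀ t' f', (∀ v, t' v = lo v ∨ t' v = hi v) → Feas h f' → Phi t f ≤ Phi t' f' :=
    fun t' f' a b => not_lt.mp fun c => hno ⟨t', f', a, b, c⟩
  let P : Finset V → Prop := fun S => x ∈ S ∧ ∀ z ∈ S, ∃ g, Feas h g ∧
    (∀ a, ∑ b, g a b = ∑ b, f a b + (if a = x then 1 else 0) - if a = z then 1 else 0) ∧
    ∀ a b, (a ∉ S ∨ b ∉ S) → g a b = f a b
  obtain ⟨S, hS, hmax⟩ := exists_max_image (univ.filter P) card ⟨{x}, by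
    refine mem_filter.mpr ⟨mem_univ _, mem_singleton_self _, fun z hz => ?_⟩
    rw [mem_singleton.mp hz]
    exact ⟨f, hf, fun a => by simp, fun _ _ _ => rfl⟩⟩
  obtain ⟨hxS, hS⟩ := (mem_filter.mp hS).2
  have hcl : ∀ y ∈ S, ∀ z, z ∉ S → f y z = h y z := by
    intro y hy z hz
    by_contra hne
    have hlt : f y z < h y z := lt_of_le_of_ne (hf.2 y z) hne
    have : P (insert z S) := by
      refine ⟨mem_insert_of_mem hxS, fun w hw => ?_⟩
      rcases mem_insert.mp hw with rfl | hw
      · obtain ⟨g, hg, hg1, hg2⟩ := hS y hy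
        have hwy : w ≠ y := fun e => hz (e ▸ hy)
        obtain ⟨g', hg', k1, k2⟩ := shift hg w {y} (by simpa using hwy) (by
          intro a ha
          rw [mem_singleton.mp ha, hg2 y w (Or.inr hz)]; exact hlt)
        refine ⟨g', hg', fun a => ?_, fun a b hab => ?_⟩
        · rw [k1, hg1]; simp
        · rw [k2, hg2]
          · rcases hab with hab | hab
            · exact Or.inl fun e => hab (mem_insert_of_mem e)
            · exact Or.inr fun e => hab (mem_insert_of_mem e)
          · rintro ⟨ha, rfl⟩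
            rw [mem_singleton.mp ha] at hab
            simp [hy] at hab
          · rintro ⟨rfl, hb⟩
            rw [mem_singleton.mp hb] at hab
            simp [hy] at hab
      · obtain ⟨g, hg, hg1, hg2⟩ := hS w hw
        refine ⟨g, hg, hg1, fun a b hab => hg2 a b ?_⟩
        rcases hab with hab | hab
        · exact Or.inl fun e => hab (mem_insert_of_mem e)
        · exact Or.inr fun e => hab (mem_insert_of_mem e)
    have := hmax _ (mem_filter.mpr ⟨mem_univ _, this⟩)
    rw [card_insert_of_notMem hz] at this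
    omega
  have ha : ∀ z ∈ S, ∑ b, f z b ≤ t z := by
    intro z hz
    by_contra hlt
    obtain ⟨g, hg, hg1, -⟩ := hS z hz
    have hzx : x ≠ z := fun e => hlt (e ▸ hx.le)
    refine absurd (hmin t g ht hg) (not_le.mpr ?_)
    refine sum_lt_sum (fun v _ => ?_) ⟨x, mem_univ _, ?_⟩
    · rw [hg1]
      unfold pen
      split_ifs with e1 e2 e2
      · exact absurd (e1.symm.trans e2) hzx
      · subst e1; omega
      · subst e2; omega
      · omega
    · rw [hg1, if_pos rfl, if_neg hzx]
      unfold pen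
      omega
  have hb : ∀ z ∈ S, 2 * t z ≤ ∑ w ∈ S, (h z w - h w z) + 2 * ∑ w ∈ Sᶜ, h z w := by
    intro z hz
    have e1 := sum_add_sum_compl S (fun w => h z w)
    have e2 := sum_add_sum_compl S (fun w => h w z)
    have e3 : 0 ≤ ∑ w ∈ Sᶜ, h z w + ∑ w ∈ Sᶜ, h w z := by
      rw [← sum_add_distrib]
      refine sum_nonneg fun w _ => ?_
      have := hf.1 z w; have := hf.2 z w; have := hf.2 w z; omega
    rw [sum_sub_distrib]
    have := h1 z
    have := h2 z
    by_cases htz : t z = lo z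
    · omega
    have hth : t z = hi z := (ht z).resolve_left htz
    by_contra hcon
    obtain ⟨g, hg, hg1, hg2⟩ := hS z hz
    have hgz : ∑ b, g z b < t z := by
      rw [hg1, if_pos rfl]
      split_ifs with e
      · subst e; omega
      · have := ha z hz; omega
    have hgS : ∀ w ∈ S, ∑ b, g w b ≤ t w := by
      intro w hw
      rw [hg1]
      have := ha w hw
      split_ifs with e1 e2
      · omega
      · subst e1; omega
      · omega
      · omega
    have hPg : Phi t g ≤ Phi t f := by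
      by_cases hzx : x = z
      · refine le_of_eq (sum_congr rfl fun v _ => ?_)
        rw [hg1, hzx]; simp
      have : ∑ v, (pen (t v) (∑ w, g v w) - pen (t v) (∑ w, f v w)) ≤
          ∑ v, ((if v = z then (1 : ℤ) else 0) - if v = x then 1 else 0) := by
        refine sum_le_sum fun v _ => ?_
        rw [hg1]
        unfold pen
        split_ifs with e1 e2 e2
        · exact absurd (e1.symm.trans e2) hzx
        · subst e1; omega
        · omega
        · omega
      rw [sum_sub_distrib, sum_sub_distrib] at this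
      simp only [sum_ite_eq', mem_univ, if_true] at this
      unfold Phi
      omega
    have hcnt : ∑ w ∈ S, (g z w + h w z) ≤ #(S.filter fun w => g w z < h w z) := by
      rw [card_filter]
      push_cast
      refine sum_le_sum fun w _ => ?_
      have := hg.1 z w; have := hg.2 z w; have := hg.2 w z; have := hc z w
      split_ifs <;> omega
    have e4 := sum_add_sum_compl S (fun w => g z w)
    have e5 : ∑ w ∈ Sᶜ, g z w ≤ ∑ w ∈ Sᶜ, h z w := sum_le_sum fun w _ => hg.2 z w
    rw [sum_add_distrib] at hcnt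
    obtain ⟨K, hK, hKc⟩ := exists_subset_card_eq
      (show (∑ b, g z b - lo z - 1).toNat ≤ #(S.filter fun w => g w z < h w z) by omega)
    have hzK : z ∉ K := fun e => by
      have := (mem_filter.mp (hK e)).2
      have := hg.1 z z; have := hc z z; omega
    obtain ⟨g', hg', k1, -⟩ := shift hg z K hzK fun w hw => (mem_filter.mp (hK hw)).2
    have hlt : Phi (Function.update t z (lo z)) g' < Phi t g := by
      have := hlh z
      refine sum_lt_sum (fun v _ => ?_) ⟨z, mem_univ _, ?_⟩
      · rw [k1]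
        by_cases e : v = z
        · subst e
          rw [Function.update_self, if_neg hzK, if_pos rfl, hKc]
          unfold pen; omega
        · rw [Function.update_of_ne e, if_neg e]
          split_ifs with e2
          · have := hgS v (mem_filter.mp (hK e2)).1
            unfold pen; omega
          · simp
      · rw [k1, Function.update_self, if_neg hzK, if_pos rfl, hKc]
        unfold pen; omega
    have := hmin (Function.update t z (lo z)) g' (fun v => by
      by_cases e : v = z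
      · subst e; simp
      · rw [Function.update_of_ne e]; exact ht v) hg'
    omega
  have s1 : ∑ z ∈ S, ∑ b, f z b = ∑ z ∈ S, ∑ w ∈ Sᶜ, h z w := by
    have : ∀ z ∈ S, ∑ b, f z b = ∑ b ∈ S, f z b + ∑ w ∈ Sᶜ, h z w := fun z hz => by
      rw [← sum_add_sum_compl S]
      congr 1
      exact sum_congr rfl fun w hw => hcl z hz w (mem_compl.mp hw)
    rw [sum_congr rfl this, sum_add_distrib, anti_sum hf.1, zero_add]
  have s2 := sum_le_sum hb
  rw [sum_add_distrib, anti_sum (f := fun z w => h z w - h w z) (fun _ _ => by ring),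
    ← mul_sum, ← mul_sum] at s2
  have s3 : ∑ z ∈ S, ∑ b, f z b < ∑ z ∈ S, t z := sum_lt_sum ha ⟨x, hxS, hx⟩
  omega

theorem flow {h : V → V → ℤ} (h0 : ∀ u v, 0 ≤ h u v) (hc : ∀ u v, h u v + h v u ≤ 1)
    {lo hi : V → ℤ} (hlh : ∀ v, lo v ≤ hi v) (h1 : ∀ v, 2 * lo v ≤ ∑ w, h v w - ∑ w, h w v)
    (h2 : ∀ v, 2 * hi v ≤ ∑ w, h v w + lo v + 2)
    (h3 : ∀ v, ∑ w, h v w - ∑ w, h w v ≤ 2 * hi v + 2)
    (h4 : ∀ v, hi v - 2 * lo v ≤ ∑ w, h w v + 3) :
    ∃ f, Feas h f ∧ ∀ v, ∑ w, f v w = lo v ∨ ∑ w, f v w = lo v + 1 ∨ ∑ w, f v w = hi v ∨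
      ∑ w, f v w = hi v + 1 := by
  obtain ⟨n, ⟨t, f, ht, hf, rfl⟩, hmin⟩ := Int.exists_least_of_bdd
    (P := fun n => ∃ t f, (∀ v, t v = lo v ∨ t v = hi v) ∧ Feas h f ∧ Phi t f = n)
    ⟨0, by
      rintro _ ⟨t, f, -, -, rfl⟩
      exact sum_nonneg fun v _ => le_max_left _ _⟩
    ⟨_, lo, fun _ _ => 0, fun _ => Or.inl rfl, ⟨fun _ _ => by simp, h0⟩, rfl⟩
  refine ⟨f, hf, fun x => ?_⟩
  have k1 : ¬ ∑ w, f x w < t x := fun hx => by
    obtain ⟨t', f', a, b, c⟩ := improve hc hlh h1 h2 ht hf hx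
    exact absurd (hmin _ ⟨t', f', a, b, rfl⟩) (not_le.mpr c)
  have hsym : ∀ (t : V → ℤ) (f : V → V → ℤ),
      Phi (fun v => - t v - 1) (fun u v => - f u v) = Phi t f := fun t f => by
    refine sum_congr rfl fun v _ => ?_
    rw [sum_neg_distrib]
    beta_reduce
    unfold pen; omega
  have k2 : ¬ t x + 1 < ∑ w, f x w := fun hx => by
    obtain ⟨t', f', a, b, c⟩ := improve (h := fun u v => h v u) (fun u v => hc v u)
      (lo := fun v => - hi v - 1) (hi := fun v => - lo v - 1) (t := fun v => - t v - 1)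
      (f := fun u v => - f u v) (x := x) (fun v => by have := hlh v; omega)
      (fun v => by have := h3 v; omega) (fun v => by have := h4 v; omega)
      (fun v => by rcases ht v with e | e <;> simp [e])
      ⟨fun u v => by beta_reduce; rw [hf.1 u v],
        fun u v => by beta_reduce; rw [← hf.1 v u]; exact hf.2 v u⟩
      (by rw [sum_neg_distrib]; omega)
    rw [hsym, ← hsym t' f'] at c
    refine absurd (hmin _ ⟨_, _, fun v => ?_, ⟨fun u v => ?_, fun u v => ?_⟩, rfl⟩) (not_le.mpr c)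
    · rcases a v with e | e <;> simp [e]
    · beta_reduce; rw [b.1 u v]
    · beta_reduce; rw [← b.1 v u]; exact b.2 v u
  rcases ht x with e | e <;> omega

end Pool.Agent.H.MP_5851c7_co
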