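import Mathlib
import Pool.Agent.H.MP_5851c7_co.A

set_option autoImplicit false

namespace Pool.Agent.H.MP_5851c7_co

open Finset

open Classical in
noncomputable def ind (p : Prop) : ℤ := if p then 1 else 0

theorem ind_pos {p : Prop} (h : p) : ind p = 1 := by simp [ind, h]
theorem ind_neg {p : Prop} (h : ¬ p) : ind p = 0 := by simp [ind, h]
theorem ind_nonneg (p : Prop) : 0 ≤ ind p := by unfold ind; split_ifs <;> simp

variable {V : Type} [Fintype V]

noncomputable def od (B : V → V → Prop) (v : V) : ℤ := ∑ w, ind (B v w)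
noncomputable def idg (B : V → V → Prop) (v : V) : ℤ := ∑ w, ind (B w v)

theorem od_nonneg (B : V → V → Prop) (v : V) : 0 ≤ od B v := sum_nonneg fun _ _ => ind_nonneg _
theorem idg_nonneg (B : V → V → Prop) (v : V) : 0 ≤ idg B v := sum_nonneg fun _ _ => ind_nonneg _

theorem deg_add {A B C : V → V → Prop} (h : ∀ u v, C u v ↔ A u v ∨ B u v)
    (hd : ∀ u v, A u v → ¬ B u v) (v : V) :
    od C v = od A v + od B v ∧ idg C v = idg A v + idg B v := by
  have k : ∀ u v, ind (C u v) = ind (A u v) + ind (B u v) := fun u v => by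
    have := h u v; have := hd u v
    unfold ind; split_ifs <;> simp_all
  unfold od idg
  simp only [k, sum_add_distrib, and_self]

theorem flowRel {F : V → V → Prop} (hF : ∀ u v, F u v → ¬ F v u) {lo hi : V → ℤ}
    (hlh : ∀ v, lo v ≤ hi v) (h1 : ∀ v, 2 * lo v ≤ od F v - idg F v)
    (h2 : ∀ v, 2 * hi v ≤ od F v + lo v + 2) (h3 : ∀ v, od F v - idg F v ≤ 2 * hi v + 2)
    (h4 : ∀ v, hi v - 2 * lo v ≤ idg F v + 3) :
    ∃ B : V → V → Prop, (∀ u v, B u v → F u v) ∧ ∀ v, od B v - idg B v = lo v ∨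
      od B v - idg B v = lo v + 1 ∨ od B v - idg B v = hi v ∨ od B v - idg B v = hi v + 1 := by
  classical
  obtain ⟨f, hf, h⟩ := flow (h := fun u v => ind (F u v)) (fun _ _ => ind_nonneg _)
    (fun u v => by have := hF u v; unfold ind; split_ifs <;> simp_all) hlh h1 h2 h3 h4
  have hle : ∀ u v, f u v ≤ 1 := fun u v => (hf.2 u v).trans
    (by beta_reduce; unfold ind; split_ifs <;> simp)
  refine ⟨fun u v => f u v = 1, fun u v e => ?_, fun v => ?_⟩
  · by_contra hn
    have : f u v ≤ ind (F u v) := hf.2 u v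
    have e' : f u v = 1 := e
    rw [ind_neg hn] at this; omega
  · have : od (fun u v => f u v = 1) v - idg (fun u v => f u v = 1) v = ∑ w, f v w := by
      unfold od idg
      rw [← sum_sub_distrib]
      refine sum_congr rfl fun w _ => ?_
      have := hle v w; have := hle w v; have := hf.1 v w
      unfold ind; split_ifs <;> omega
    rw [this]; exact h v

theorem adjust {F : V → V → Prop} (hF : ∀ u v, F u v → ¬ F v u) (M a : V → ℤ)
    (hM : ∀ v, 0 < M v) :
    ∃ B : V → V → Prop, (∀ u v, B u v → F u v) ∧ ∀ v, 4 * M v ≤ od F v + idg F v →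
      ∃ j : ℤ, 0 ≤ j ∧ j ≤ 1 ∧ M v ∣ od B v - idg B v - a v - j := by
  have key : ∀ v, ∃ lo hi : ℤ, lo ≤ hi ∧ 2 * lo ≤ od F v - idg F v ∧
      2 * hi ≤ od F v + lo + 2 ∧ od F v - idg F v ≤ 2 * hi + 2 ∧ hi - 2 * lo ≤ idg F v + 3 ∧
      (4 * M v ≤ od F v + idg F v → M v ∣ lo - a v ∧ M v ∣ hi - a v) := by
    intro v
    have := od_nonneg F v
    have := idg_nonneg F v
    by_cases hv : 4 * M v ≤ od F v + idg F v
    · have r0 := Int.emod_nonneg ((od F v - idg F v) / 2 - a v) (hM v).ne'
      have r1 := Int.emod_lt_of_pos ((od F v - idg F v) / 2 - a v) (hM v)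
      have r2 := Int.mul_ediv_add_emod ((od F v - idg F v) / 2 - a v) (M v)
      generalize ((od F v - idg F v) / 2 - a v) % M v = r at r0 r1 r2
      generalize ((od F v - idg F v) / 2 - a v) / M v = q at r2
      refine ⟨(od F v - idg F v) / 2 - r, (od F v - idg F v) / 2 - r + M v, by omega, by omega,
        by omega, by omega, by omega, fun _ => ⟨⟨q, by omega⟩, ⟨q + 1, ?_⟩⟩⟩
      rw [mul_add]; omega
    · exact ⟨(od F v - idg F v) / 2, (od F v - idg F v) / 2, le_rfl, by omega, by omega, by omega,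
        by omega, fun h => absurd h hv⟩
  choose lo hi k0 k1 k2 k3 k4 k5 using key
  obtain ⟨B, hB, h⟩ := flowRel hF k0 k1 k2 k3 k4
  refine ⟨B, hB, fun v hv => ?_⟩
  obtain ⟨d1, d2⟩ := k5 v hv
  rcases h v with e | e | e | e <;> rw [e]
  · exact ⟨0, le_rfl, by simp, by simpa using d1⟩
  · exact ⟨1, by simp, le_rfl, by rwa [show lo v + 1 - a v - 1 = lo v - a v by ring]⟩
  · exact ⟨0, le_rfl, by simp, by simpa using d2⟩
  · exact ⟨1, by simp, le_rfl, by rwa [show hi v + 1 - a v - 1 = hi v - a v by ring]⟩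

def cov (F : V → V → Prop) : V ⊕ V → V ⊕ V → Prop
  | Sum.inl u, Sum.inr v => F u v
  | _, _ => False

theorem split (F : V → V → Prop) : ∃ B : V → V → Prop, (∀ u v, B u v → F u v) ∧ ∀ v,
    od F v + idg F v - 3 ≤ 2 * (od B v + idg B v) ∧
      2 * (od B v + idg B v) ≤ od F v + idg F v + 3 := by
  obtain ⟨B, hB, h⟩ := flowRel (F := cov F) (by rintro (u | u) (v | v) <;> simp [cov])
    (lo := fun v => (od (cov F) v - idg (cov F) v) / 2)
    (hi := fun v => (od (cov F) v - idg (cov F) v) / 2) (fun _ => le_rfl) (fun _ => by omega)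
    (fun v => by have := od_nonneg (cov F) v; have := idg_nonneg (cov F) v; omega)
    (fun _ => by omega)
    (fun v => by have := od_nonneg (cov F) v; have := idg_nonneg (cov F) v; omega)
  have n1 : ∀ u v, ind (B (Sum.inl u) (Sum.inl v)) = 0 := fun u v => ind_neg fun e => hB _ _ e
  have n2 : ∀ u v, ind (B (Sum.inr u) v) = 0 := fun u v => ind_neg fun e => by
    have := hB _ _ e
    rcases v with v | v <;> exact this
  have n0 : ind False = 0 := ind_neg id
  refine ⟨fun u v => B (Sum.inl u) (Sum.inr v), fun u v e => hB _ _ e, fun v => ?_⟩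
  have a1 := h (Sum.inl v)
  have a2 := h (Sum.inr v)
  simp only [od, idg, Fintype.sum_sum_type, n1, n2, cov, n0, sum_const_zero] at a1 a2 ⊢
  omega

theorem local_opt (M : V → ℕ) (hM : ∀ v, 0 < M v) (w : V → V → ℕ → ℕ → ℤ)
    (hs : ∀ u v a b, w u v a b = w v u b a) (hd : ∀ v a b, w v v a b = 0) :
    ∃ c : V → ℕ, ∀ v, M v * ∑ u, w v u (c v) (c u) ≤
      ∑ u, ∑ a ∈ range (M v), w v u a (c u) := by
  classical
  obtain ⟨c, hc, hmin⟩ := exists_min_image (Fintype.piFinset fun v => range (M v))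
    (fun c => ∑ x, ∑ y, w x y (c x) (c y)) ⟨fun _ => 0, by simpa using hM⟩
  have key : ∀ (v : V) (c : V → ℕ), ∑ x, ∑ y, w x y (c x) (c y) =
      ∑ x ∈ univ.erase v, ∑ y ∈ univ.erase v, w x y (c x) (c y) +
        2 * ∑ u ∈ univ.erase v, w v u (c v) (c u) := by
    intro v c
    rw [← add_sum_erase _ _ (mem_univ v), ← add_sum_erase _ _ (mem_univ v), hd]
    have : ∀ x ∈ univ.erase v, ∑ y, w x y (c x) (c y) =
        w v x (c v) (c x) + ∑ y ∈ univ.erase v, w x y (c x) (c y) := fun x _ => by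
      rw [← add_sum_erase _ _ (mem_univ v), hs]
    rw [sum_congr rfl this, sum_add_distrib]
    ring
  refine ⟨c, fun v => ?_⟩
  rw [sum_comm]
  have : ∀ a ∈ range (M v), ∑ u, w v u (c v) (c u) ≤ ∑ u, w v u a (c u) := by
    intro a ha
    have h1 := hmin (Function.update c v a) (by
      rw [Fintype.mem_piFinset] at hc ⊢
      intro u
      by_cases e : u = v
      · subst e; simpa using ha
      · rw [Function.update_of_ne e]; exact hc u)
    rw [key v, key v, Function.update_self] at h1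
    have e1 : ∑ x ∈ univ.erase v, ∑ y ∈ univ.erase v,
        w x y (Function.update c v a x) (Function.update c v a y) =
        ∑ x ∈ univ.erase v, ∑ y ∈ univ.erase v, w x y (c x) (c y) :=
      sum_congr rfl fun x hx => sum_congr rfl fun y hy => by
        rw [Function.update_of_ne (ne_of_mem_erase hx), Function.update_of_ne (ne_of_mem_erase hy)]
    have e2 : ∑ u ∈ univ.erase v, w v u a (Function.update c v a u) =
        ∑ u ∈ univ.erase v, w v u a (c u) :=
      sum_congr rfl fun x hx => by rw [Function.update_of_ne (ne_of_mem_erase hx)]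
    rw [← add_sum_erase _ _ (mem_univ v), ← add_sum_erase _ _ (mem_univ v), hd, hd]
    omega
  have := card_nsmul_le_sum _ _ _ this
  simpa using this

def Close (m : ℕ) (x : ℤ) : Prop := ∃ j : ℤ, -2 ≤ j ∧ j ≤ 2 ∧ (m : ℤ) ∣ x - j

theorem close_neg {m : ℕ} {x y : ℤ} (h : y = - x) : Close m x ↔ Close m y := by
  subst h
  constructor <;> rintro ⟨j, a, b, q, c⟩ <;>
    exact ⟨-j, by omega, by omega, -q, by rw [mul_neg]; omega⟩

theorem cnt {m M : ℕ} (h : m ∣ M) (hm : 0 < m) (y : ℤ) :
    m * ∑ a ∈ range M, ind (Close m (a - y)) ≤ 5 * M := by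
  classical
  obtain ⟨q, rfl⟩ := h
  have h1 : ∑ a ∈ range (m * q), ind (Close m (a - y)) =
      #((range (m * q)).filter fun a : ℕ => Close m (a - y)) := by
    rw [card_filter]; push_cast
    exact sum_congr rfl fun a _ => by unfold ind; congr
  have h2 : ((range (m * q)).filter fun a : ℕ => Close m (a - y)) ⊆
      (Icc (-2 : ℤ) 2).biUnion fun j => (range (m * q)).filter fun a : ℕ => (m : ℤ) ∣ a - y - j := by
    intro a ha
    obtain ⟨ha, j, j1, j2, j3⟩ := mem_filter.mp ha
    exact mem_biUnion.mpr ⟨j, mem_Icc.mpr ⟨j1, j2⟩, mem_filter.mpr ⟨ha, j3⟩⟩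
  have h3 : ∀ j ∈ Icc (-2 : ℤ) 2,
      #((range (m * q)).filter fun a : ℕ => (m : ℤ) ∣ a - y - j) ≤ q := by
    intro j _
    conv_rhs => rw [← card_range q]
    refine card_le_card_of_injOn (fun a => a / m) (fun a ha => ?_) fun a ha b hb hab => ?_
    · have := (mem_filter.mp ha).1
      simp only [coe_range, Set.mem_Iio]
      exact Nat.div_lt_of_lt_mul (mem_range.mp this)
    · have d : (m : ℤ) ∣ (b : ℤ) - a := by
        have := dvd_sub (mem_filter.mp hb).2 (mem_filter.mp ha).2
        rwa [show (b : ℤ) - y - j - (a - y - j) = b - a by ring] at this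
      have : a % m = b % m := Nat.modEq_iff_dvd.mpr d
      rw [← Nat.div_add_mod a m, ← Nat.div_add_mod b m, this]
      exact congrArg (fun z => m * z + b % m) hab
  have h4 := (card_le_card h2).trans (card_biUnion_le_card_mul _ _ _ h3)
  rw [show #(Icc (-2 : ℤ) 2) = 5 from rfl] at h4
  rw [h1]
  have : (m : ℤ) * #((range (m * q)).filter fun a : ℕ => Close m (a - y)) ≤ m * (5 * q : ℕ) :=
    mul_le_mul_of_nonneg_left (by exact_mod_cast h4) (by positivity)
  push_cast at this ⊢
  linarith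

end Pool.Agent.H.MP_5851c7_co
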