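import Mathlib
import Pool.Agent.H.MP_5851c7_co.B

set_option autoImplicit false

namespace Pool.Agent.H.MP_5851c7_co

open Finset

variable {V : Type} [Fintype V]

def SL (B : V → V → Prop) : Prop := ∀ u v, B u v → od B u - idg B u ≠ od B v - idg B v

def Dec (F : V → V → Prop) (ι : Type) : Prop :=
  ∃ c : V → V → ι, ∀ i, SL fun u v => F u v ∧ c u v = i

theorem dec_unit {F : V → V → Prop} (h : SL F) : Dec F Unit :=
  ⟨fun _ _ => (), fun i => by simpa using h⟩

theorem dec_sum (F p : V → V → Prop) {ι κ : Type} (h1 : Dec (fun u v => F u v ∧ p u v) ι)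
    (h2 : Dec (fun u v => F u v ∧ ¬ p u v) κ) : Dec F (ι ⊕ κ) := by
  classical
  obtain ⟨c1, h1⟩ := h1
  obtain ⟨c2, h2⟩ := h2
  refine ⟨fun u v => if p u v then Sum.inl (c1 u v) else Sum.inr (c2 u v), ?_⟩
  rintro (i | i)
  · convert h1 i using 3 with u v
    by_cases h : p u v <;> simp [h]
  · convert h2 i using 3 with u v
    by_cases h : p u v <;> simp [h]

theorem sl_of {B : V → V → Prop} (M : V → ℕ) (c : V → ℤ) (s : ℤ) (g : V → Prop)
    (hM : ∀ u v, min (M u) (M v) ∣ M u) (hg : ∀ u v, B u v → g u ∧ g v)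
    (h1 : ∀ u v, B u v → ¬ Close (min (M u) (M v)) (c u - c v))
    (h2 : ∀ v, g v → ∃ j, s ≤ j ∧ j ≤ s + 2 ∧ (M v : ℤ) ∣ od B v - idg B v - c v - j) : SL B := by
  intro u v h e
  obtain ⟨i, i1, i2, i3⟩ := h2 u (hg u v h).1
  obtain ⟨j, j1, j2, j3⟩ := h2 v (hg u v h).2
  refine h1 u v h ⟨j - i, by omega, by omega, ?_⟩
  have d1 := (Int.natCast_dvd_natCast.mpr (hM u v)).trans i3
  have d2 := (Int.natCast_dvd_natCast.mpr (hM v u)).trans j3
  rw [min_comm] at d2
  have := dvd_sub d2 d1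
  rwa [e, show od B v - idg B v - c v - j - (od B v - idg B v - c u - i) =
    c u - c v - (j - i) by ring] at this

theorem moduli (d : V → ℤ) : ∃ M : V → ℕ, (∀ v, 2048 ≤ M v) ∧ (∀ u v, min (M u) (M v) ∣ M u) ∧
    ∀ v, 32768 ≤ d v → 16 * (M v : ℤ) ≤ d v ∧ d v < 32 * M v := by
  refine ⟨fun v => 2 ^ max 11 (Nat.log 2 ((d v).toNat / 16)), fun v => ?_, fun u v => ?_,
    fun v hv => ?_⟩
  · exact Nat.pow_le_pow_right (n := 2) (i := 11) (by norm_num) (le_max_left _ _)
  · beta_reduce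
    rcases le_total (2 ^ max 11 (Nat.log 2 ((d u).toNat / 16)))
      (2 ^ max 11 (Nat.log 2 ((d v).toNat / 16))) with h | h
    · rw [min_eq_left h]
    · rw [min_eq_right h]
      exact pow_dvd_pow _ ((Nat.pow_le_pow_iff_right (by norm_num)).mp h)
  · have h1 : 11 ≤ Nat.log 2 ((d v).toNat / 16) :=
      Nat.le_log_of_pow_le (by norm_num) (by omega)
    have h2 := Nat.pow_log_le_self 2 (show (d v).toNat / 16 ≠ 0 by omega)
    have h3 := Nat.lt_pow_succ_log_self (show 1 < 2 by norm_num) ((d v).toNat / 16)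
    beta_reduce
    rw [max_eq_right h1]
    rw [pow_succ] at h3
    generalize 2 ^ Nat.log 2 ((d v).toNat / 16) = m at h2 h3 ⊢
    omega

theorem dense {F : V → V → Prop} (hF : ∀ u v, F u v → ¬ F v u)
    (hd : ∀ u v, F u v → 32768 ≤ od F u + idg F u ∧ 32768 ≤ od F v + idg F v) :
    Dec F (Unit ⊕ Unit ⊕ Unit) := by
  obtain ⟨M, M0, Md, M1⟩ := moduli fun v => od F v + idg F v
  have Mp : ∀ v, 0 < M v := fun v => by have := M0 v; omega
  obtain ⟨e, he⟩ : ∃ e : V → V → ℤ, ∀ u v, e u v = ind (F u v) + ind (F v u) := ⟨_, fun _ _ => rfl⟩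
  obtain ⟨m, hm⟩ : ∃ m : V → V → ℕ, ∀ u v, m u v = min (M u) (M v) := ⟨_, fun _ _ => rfl⟩
  have es : ∀ u v, e u v = e v u := fun u v => by rw [he, he, add_comm]
  have ms : ∀ u v, m u v = m v u := fun u v => by rw [hm, hm, min_comm]
  have e0 : ∀ v, e v v = 0 := fun v => by rw [he, ind_neg fun h => hF v v h h]; rfl
  have en : ∀ u v, 0 ≤ e u v := fun u v => by
    rw [he]; exact add_nonneg (ind_nonneg _) (ind_nonneg _)
  have ed : ∀ v, ∑ u, e v u = od F v + idg F v := fun v => by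
    simp only [he, od, idg, sum_add_distrib]
  have c0 : ∀ v u (y : ℤ), m v u * ∑ a ∈ range (M v), ind (Close (m v u) (a - y)) ≤ 5 * M v :=
    fun v u y => cnt (hm v u ▸ Md v u) (by rw [hm]; exact lt_min (Mp _) (Mp _)) y
  have c1' : ∀ v u (y : ℤ), 2048 * ∑ a ∈ range (M v), ind (Close (m v u) (a - y)) ≤ 5 * M v :=
    fun v u y => le_trans (mul_le_mul_of_nonneg_right
      (by rw [hm]; exact_mod_cast le_min (M0 v) (M0 u)) (sum_nonneg fun _ _ => ind_nonneg _))
      (c0 v u y)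
  obtain ⟨c1, h1⟩ := local_opt M Mp (fun v u a b => e v u * ind (Close (m v u) (a - b)))
    (fun u v a b => by rw [es, ms, close_neg (y := (b : ℤ) - a) (by ring)])
    (fun v a b => by rw [e0, zero_mul])
  obtain ⟨R1, hR1⟩ : ∃ R : V → V → Prop, ∀ u v, R u v = Close (m u v) (c1 u - c1 v) :=
    ⟨_, fun _ _ => rfl⟩
  have R1s : ∀ u v, R1 u v = R1 v u := fun u v => by
    rw [hR1, hR1, ms, close_neg (y := (c1 v : ℤ) - c1 u) (by ring)]
  have r1 : ∀ v, 2048 * ∑ u, e v u * ind (R1 v u) ≤ 5 * (od F v + idg F v) := by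
    intro v
    have k : 2048 * ∑ u, ∑ a ∈ range (M v), e v u * ind (Close (m v u) (a - c1 u)) ≤
        M v * (5 * (od F v + idg F v)) := by
      rw [← ed, mul_sum, mul_sum, mul_sum]
      refine sum_le_sum fun u _ => ?_
      rw [← mul_sum]
      have := mul_le_mul_of_nonneg_left (c1' v u (c1 u)) (en v u)
      linarith
    have := h1 v
    simp only [← hR1] at this
    refine le_of_mul_le_mul_left (a := (M v : ℤ)) ?_ (by exact_mod_cast Mp v)
    linarith
  obtain ⟨b, hb⟩ : ∃ b : V → ℤ, ∀ v, b v = od F v - idg F v - c1 v := ⟨_, fun _ => rfl⟩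
  obtain ⟨c2, h2⟩ := local_opt M Mp (fun v u x y => e v u * ((1 + ind (R1 v u) * m v u) *
      ind (Close (m v u) (x - y)) + ind (Close (m v u) ((b v - x) - (b u - y)))))
    (fun u v x y => by
      rw [es, ms, R1s, close_neg (y := (y : ℤ) - x) (by ring),
        close_neg (x := (b u - x) - (b v - y)) (y := (b v - y) - (b u - x)) (by ring)])
    (fun v a b => by rw [e0, zero_mul])
  obtain ⟨R2, hR2⟩ : ∃ R : V → V → Prop, ∀ u v, R u v = Close (m u v) (c2 u - c2 v) :=
    ⟨_, fun _ _ => rfl⟩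
  obtain ⟨R3, hR3⟩ : ∃ R : V → V → Prop,
      ∀ u v, R u v = Close (m u v) ((b u - c2 u) - (b v - c2 v)) := ⟨_, fun _ _ => rfl⟩
  have R2s : ∀ u v, R2 u v = R2 v u := fun u v => by
    rw [hR2, hR2, ms, close_neg (y := (c2 v : ℤ) - c2 u) (by ring)]
  have R3s : ∀ u v, R3 u v = R3 v u := fun u v => by
    rw [hR3, hR3, ms, close_neg (y := (b v - c2 v) - (b u - c2 u)) (by ring)]
  have r2 : ∀ v, 2048 * ∑ u, e v u * ((1 + ind (R1 v u) * m v u) * ind (R2 v u) + ind (R3 v u)) ≤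
      35 * (od F v + idg F v) := by
    intro v
    have k : 2048 * ∑ u, ∑ x ∈ range (M v), e v u * ((1 + ind (R1 v u) * m v u) *
        ind (Close (m v u) (x - c2 u)) + ind (Close (m v u) ((b v - x) - (b u - c2 u)))) ≤
        ∑ u, M v * (10 * e v u + 5 * 2048 * (e v u * ind (R1 v u))) := by
      rw [mul_sum]
      refine sum_le_sum fun u _ => ?_
      rw [← mul_sum, sum_add_distrib, ← mul_sum]
      have a1 := c1' v u (c2 u)
      have a2 := mul_le_mul_of_nonneg_left (c0 v u (c2 u)) (ind_nonneg (R1 v u))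
      have a3 := c1' v u (b v - (b u - c2 u))
      have a4 : ∑ x ∈ range (M v), ind (Close (m v u) ((b v - x) - (b u - c2 u))) =
          ∑ x ∈ range (M v), ind (Close (m v u) (x - (b v - (b u - c2 u)))) :=
        sum_congr rfl fun x _ => by rw [close_neg (y := x - (b v - (b u - c2 u))) (by ring)]
      rw [a4]
      have a5 := mul_le_mul_of_nonneg_left a1 (en v u)
      have a6 := mul_le_mul_of_nonneg_left a2 (en v u)
      have a7 := mul_le_mul_of_nonneg_left a3 (en v u)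
      linarith
    rw [← mul_sum, sum_add_distrib, ← mul_sum, ← mul_sum, ed] at k
    have := h2 v
    simp only [← hR2, ← hR3] at this
    have k2 := mul_le_mul_of_nonneg_left (r1 v) (show (0 : ℤ) ≤ M v by positivity)
    refine le_of_mul_le_mul_left (a := (M v : ℤ)) ?_ (by exact_mod_cast Mp v)
    linarith
  have wn : ∀ v u, 0 ≤ e v u * ((1 + ind (R1 v u) * m v u) * ind (R2 v u) + ind (R3 v u)) :=
    fun v u => by
      have := ind_nonneg (R1 v u); have := ind_nonneg (R2 v u); have := ind_nonneg (R3 v u)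
      have := en v u
      positivity
  have no12 : ∀ u v, F u v → R1 u v → ¬ R2 u v := by
    have key : ∀ u v, e u v = 1 → 32768 ≤ od F u + idg F u → M u ≤ M v → R1 u v → ¬ R2 u v := by
      intro u v h hu hle a1 a2
      have k := single_le_sum (fun w _ => wn u w) (mem_univ v)
      rw [h, ind_pos a1, ind_pos a2, hm, min_eq_left hle] at k
      have := r2 u; have := (M1 u hu).2; have := ind_nonneg (R3 u v)
      omega
    intro u v h a1 a2
    have h' : e u v = 1 := by rw [he, ind_pos h, ind_neg (hF u v h)]; rfl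
    rcases le_total (M u) (M v) with hle | hle
    · exact key u v h' (hd u v h).1 hle a1 a2
    · exact key v u (es u v ▸ h') (hd u v h).2 hle (R1s u v ▸ a1) (R2s u v ▸ a2)
  obtain ⟨G, hG⟩ : ∃ G : V → V → Prop, ∀ u v, G u v = (F u v ∧ ¬ R1 u v ∧ ¬ R2 u v ∧ ¬ R3 u v) :=
    ⟨_, fun _ _ => rfl⟩
  have dG : ∀ v, 2008 * (od F v + idg F v) ≤ 2048 * (od G v + idg G v) := by
    intro v
    have k : ∑ u, e v u ≤ ∑ u, (ind (G v u) + ind (G u v) + e v u * ind (R1 v u) +
        e v u * ((1 + ind (R1 v u) * m v u) * ind (R2 v u) + ind (R3 v u))) := by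
      refine sum_le_sum fun u _ => ?_
      have := wn v u
      have := en v u
      have := ind_nonneg (G v u)
      have := ind_nonneg (G u v)
      by_cases a1 : R1 v u
      · rw [ind_pos a1] at *; linarith
      have := ind_nonneg (R2 v u)
      have := ind_nonneg (R3 v u)
      rw [ind_neg a1]
      by_cases a2 : R2 v u
      · rw [ind_pos a2]; nlinarith
      by_cases a3 : R3 v u
      · rw [ind_pos a3]; nlinarith
      rw [hG, hG, R1s u v, R2s u v, R3s u v, he]
      simp [a1, a2, a3, ind_neg]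
    rw [sum_add_distrib, sum_add_distrib, sum_add_distrib, ed] at k
    have := r1 v; have := r2 v
    unfold od idg at *
    linarith
  have GF : ∀ u v, G u v → F u v := fun u v h => (hG u v ▸ h).1
  obtain ⟨F1, hF1, s1⟩ := split G
  have s2 := deg_add (C := G) (A := F1) (B := fun u v => G u v ∧ ¬ F1 u v)
    (fun u v => by have := hF1 u v; tauto) (fun u v => by tauto)
  obtain ⟨A1, hA1⟩ : ∃ A : V → V → Prop, A = fun u v => F u v ∧ ¬ R1 u v ∧ (R2 u v ∨ R3 u v) :=
    ⟨_, rfl⟩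
  obtain ⟨A2, hA2⟩ : ∃ A : V → V → Prop, A = fun u v => F u v ∧ R1 u v := ⟨_, rfl⟩
  obtain ⟨B1, hB1, t1⟩ := adjust (F := F1) (fun u v a a' => hF u v (GF _ _ (hF1 _ _ a))
    (GF _ _ (hF1 _ _ a'))) (fun v => M v) (fun v => c1 v - (od A1 v - idg A1 v))
    (fun v => by exact_mod_cast Mp v)
  obtain ⟨B2, hB2, t2⟩ := adjust (F := fun u v => G u v ∧ ¬ F1 u v) (fun u v a a' => hF u v
    (GF _ _ a.1) (GF _ _ a'.1)) (fun v => M v) (fun v => c2 v - (od A2 v - idg A2 v))
    (fun v => by exact_mod_cast Mp v)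
  have q : ∀ u v, (B1 u v → F1 u v) ∧ (B2 u v → G u v ∧ ¬ F1 u v) ∧ (F1 u v → G u v) ∧
      (G u v ↔ F u v ∧ ¬ R1 u v ∧ ¬ R2 u v ∧ ¬ R3 u v) ∧ (F u v → R1 u v → ¬ R2 u v) :=
    fun u v => ⟨hB1 u v, hB2 u v, hF1 u v, by rw [hG], no12 u v⟩
  obtain ⟨p, hp⟩ : ∃ p : V → V → Prop, p = fun u v => A1 u v ∨ B1 u v := ⟨_, rfl⟩
  obtain ⟨r, hr⟩ : ∃ p : V → V → Prop, p = fun u v => A2 u v ∨ B2 u v := ⟨_, rfl⟩
  have d1 := deg_add (C := fun u v => F u v ∧ p u v) (A := A1) (B := B1)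
    (fun u v => by have := q u v; simp only [hp, hA1]; tauto)
    (fun u v => by have := q u v; simp only [hA1]; tauto)
  have d2 := deg_add (C := fun u v => (F u v ∧ ¬ p u v) ∧ r u v) (A := A2) (B := B2)
    (fun u v => by have := q u v; simp only [hp, hr, hA1, hA2]; tauto)
    (fun u v => by have := q u v; simp only [hA2]; tauto)
  have d3 := deg_add (C := F) (A := fun u v => F u v ∧ p u v) (B := fun u v => F u v ∧ ¬ p u v)
    (fun u v => by tauto) (fun u v => by tauto)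
  have d4 := deg_add (C := fun u v => F u v ∧ ¬ p u v) (A := fun u v => (F u v ∧ ¬ p u v) ∧ r u v)
    (B := fun u v => (F u v ∧ ¬ p u v) ∧ ¬ r u v) (fun u v => by tauto) (fun u v => by tauto)
  have u1 : ∀ v, 32768 ≤ od F v + idg F v → ∃ j : ℤ, 0 ≤ j ∧ j ≤ 1 ∧ (M v : ℤ) ∣
      od (fun u v => F u v ∧ p u v) v - idg (fun u v => F u v ∧ p u v) v - c1 v - j := by
    intro v hv
    obtain ⟨j, j1, j2, z, j3⟩ := t1 v (by
      have := s1 v; have := dG v; have := M1 v hv; omega)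
    have := d1 v
    exact ⟨j, j1, j2, z, by omega⟩
  have u2 : ∀ v, 32768 ≤ od F v + idg F v → ∃ j : ℤ, 0 ≤ j ∧ j ≤ 1 ∧ (M v : ℤ) ∣
      od (fun u v => (F u v ∧ ¬ p u v) ∧ r u v) v -
        idg (fun u v => (F u v ∧ ¬ p u v) ∧ r u v) v - c2 v - j := by
    intro v hv
    obtain ⟨j, j1, j2, z, j3⟩ := t2 v (by
      have := s1 v; have := s2 v; have := dG v; have := M1 v hv; omega)
    have := d2 v
    exact ⟨j, j1, j2, z, by omega⟩
  refine dec_sum F p (dec_unit ?_) (dec_sum _ r (dec_unit ?_) (dec_unit ?_))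
  · refine sl_of M (fun v => c1 v) 0 (fun v => 32768 ≤ od F v + idg F v) Md
      (fun u v h => hd u v h.1) (fun u v h => ?_) fun v hv => ?_
    · rw [← hm, ← hR1]
      have := q u v; simp only [hp, hA1] at h; tauto
    · obtain ⟨j, j1, j2, j3⟩ := u1 v hv
      exact ⟨j, j1, by omega, j3⟩
  · refine sl_of M (fun v => c2 v) 0 (fun v => 32768 ≤ od F v + idg F v) Md
      (fun u v h => hd u v h.1.1) (fun u v h => ?_) fun v hv => ?_
    · rw [← hm, ← hR2]
      have := q u v; simp only [hr, hA2] at h; tauto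
    · obtain ⟨j, j1, j2, j3⟩ := u2 v hv
      exact ⟨j, j1, by omega, j3⟩
  · refine sl_of M (fun v => b v - c2 v) (-2) (fun v => 32768 ≤ od F v + idg F v) Md
      (fun u v h => hd u v h.1.1) (fun u v h => ?_) fun v hv => ?_
    · rw [← hm, ← hR3]
      have := q u v; simp only [hp, hr, hA1, hA2] at h; tauto
    · obtain ⟨i, i1, i2, y, i3⟩ := u1 v hv
      obtain ⟨j, j1, j2, z, j3⟩ := u2 v hv
      have := d3 v; have := d4 v; have := hb v
      exact ⟨- i - j, by omega, by omega, - y - z, by rw [mul_sub, mul_neg]; omega⟩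

theorem core (E : V → V → Prop) (hs : ∀ u v, E u v → E v u) (hi : ∀ v, ¬ E v v) (n : ℕ)
    (U : Finset V) : ∃ S ⊆ U, (∀ v ∈ S, (n + 1 : ℤ) ≤ ∑ w, ind (E v w ∧ w ∈ S)) ∧
      ∃ c : V → Fin (n + 1), ∀ u ∈ U, ∀ v ∈ U, E u v → ¬ (u ∈ S ∧ v ∈ S) → c u ≠ c v := by
  classical
  induction U using Finset.strongInduction with
  | H U ih =>
  by_cases h : ∀ v ∈ U, (n + 1 : ℤ) ≤ ∑ w, ind (E v w ∧ w ∈ U)
  · exact ⟨U, Subset.rfl, h, fun _ => 0, fun u hu v hv _ k => absurd ⟨hu, hv⟩ k⟩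
  push Not at h
  obtain ⟨x, hx, hlt⟩ := h
  obtain ⟨S, hS, h1, c, h2⟩ := ih (U.erase x) (erase_ssubset hx)
  have hc : ∑ w, ind (E x w ∧ w ∈ U) = #(univ.filter fun w => E x w ∧ w ∈ U) := by
    rw [card_filter]; push_cast
    exact sum_congr rfl fun a _ => by unfold ind; congr
  obtain ⟨a, ha⟩ : ∃ a, a ∉ (univ.filter fun w => E x w ∧ w ∈ U).image c := by
    by_contra hn
    push Not at hn
    have := (card_le_card (fun a _ => hn a : univ ⊆ _)).trans card_image_le
    rw [card_univ, Fintype.card_fin] at this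
    omega
  have key : ∀ v ∈ U, E x v → a ≠ c v := fun v hv h e =>
    ha (mem_image.mpr ⟨v, mem_filter.mpr ⟨mem_univ _, h, hv⟩, e.symm⟩)
  refine ⟨S, hS.trans (erase_subset _ _), h1, Function.update c x a, fun u hu v hv h k => ?_⟩
  by_cases e1 : u = x
  · subst e1
    have : v ≠ u := fun e => hi u (e ▸ h)
    rw [Function.update_self, Function.update_of_ne this]
    exact key v hv h
  by_cases e2 : v = x
  · subst e2
    rw [Function.update_self, Function.update_of_ne e1]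
    exact (key u hu (hs _ _ h)).symm
  rw [Function.update_of_ne e1, Function.update_of_ne e2]
  exact h2 u (mem_erase.mpr ⟨e1, hu⟩) v (mem_erase.mpr ⟨e2, hv⟩) h k

theorem dec_col {F : V → V → Prop} {ι : Type} (c : V → ι) (h : ∀ u v, F u v → c u ≠ c v) :
    Dec F (ι × ι) := by
  refine ⟨fun u v => (c u, c v), fun i u v huv e => ?_⟩
  obtain ⟨h1, rfl⟩ := huv
  have hne := h u v h1
  have a1 : idg (fun x y => F x y ∧ (c x, c y) = (c u, c v)) u = 0 :=
    sum_eq_zero fun w _ => ind_neg fun k => hne (congrArg Prod.snd k.2)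
  have a2 : od (fun x y => F x y ∧ (c x, c y) = (c u, c v)) v = 0 :=
    sum_eq_zero fun w _ => ind_neg fun k => hne (congrArg Prod.fst k.2).symm
  have a3 : ind (F u v ∧ (c u, c v) = (c u, c v)) ≤
      od (fun x y => F x y ∧ (c x, c y) = (c u, c v)) u :=
    single_le_sum (f := fun w => ind (F u w ∧ (c u, c w) = (c u, c v)))
      (fun _ _ => ind_nonneg _) (mem_univ v)
  rw [ind_pos ⟨h1, rfl⟩] at a3
  have := idg_nonneg (fun x y => F x y ∧ (c x, c y) = (c u, c v)) v
  beta_reduce at e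
  omega

abbrev Col : Type := (Unit ⊕ Unit ⊕ Unit) ⊕ Fin 32768 × Fin 32768

theorem dec_asym {F : V → V → Prop} (hF : ∀ u v, F u v → ¬ F v u) : Dec F Col := by
  obtain ⟨S, -, h1, c, h2⟩ := core (fun u v => F u v ∨ F v u) (fun _ _ => Or.symm)
    (fun v h => hF v v (h.elim id id) (h.elim id id)) 32767 univ
  refine dec_sum F (fun u v => u ∈ S ∧ v ∈ S) (dense (fun u v a b => hF u v a.1 b.1) ?_)
    (dec_col c fun u v h => h2 u (mem_univ _) v (mem_univ _) (Or.inl h.1) h.2)
  have key : ∀ v ∈ S, 32768 ≤ od (fun u v => F u v ∧ u ∈ S ∧ v ∈ S) v +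
      idg (fun u v => F u v ∧ u ∈ S ∧ v ∈ S) v := by
    intro v hv
    refine le_trans (h1 v hv) ?_
    unfold od idg
    rw [← sum_add_distrib]
    refine sum_le_sum fun w _ => ?_
    unfold ind
    split_ifs <;> simp_all
  exact fun u v h => ⟨key u h.2.1, key v h.2.2⟩

theorem dec_all {F : V → V → Prop} (hF : ∀ v, ¬ F v v) : Dec F (Col ⊕ Col) := by
  let e := Fintype.equivFin V
  refine dec_sum F (fun u v => e u < e v) (dec_asym fun u v a b => lt_asymm a.2 b.2)
    (dec_asym fun u v a b => ?_)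
  have : u = v := e.injective (le_antisymm (not_lt.mp b.2) (not_lt.mp a.2))
  subst this
  exact hF u a.1

end Pool.Agent.H.MP_5851c7_co
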